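import Pool.Agent.Lib.MP_7dd24e_an.General

/-!
# Hollow shells with constant potential in the cavity which are not ellipsoidal
-/

set_option autoImplicit false
open MeasureTheory Set Metric

namespace Pool.Agent.Results.MP_7dd24e_an.UnconditionalShells

/-- `S` is homeomorphic to the unit sphere. -/
def IsSphere (S : Set (EuclideanSpace ℝ (Fin 3))) : Prop :=
  Nonempty (S ≃ₜ sphere (0 : EuclideanSpace ℝ (Fin 3)) 1)

/-- `S` is an ellipsoid: the image of the unit sphere under an invertible affine map. -/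
def IsEllipsoid (S : Set (EuclideanSpace ℝ (Fin 3))) : Prop :=
  ∃ f : EuclideanSpace ℝ (Fin 3) ≃ᵃ[ℝ] EuclideanSpace ℝ (Fin 3),
    S = f '' sphere (0 : EuclideanSpace ℝ (Fin 3)) 1

/-- `U` is a bounded connected open set with boundary homeomorphic to the sphere. -/
def IsSolid (U : Set (EuclideanSpace ℝ (Fin 3))) : Prop :=
  IsOpen U ∧ IsConnected U ∧ Bornology.IsBounded U ∧ IsSphere (frontier U)

/-- The surface `∂T` lies inside `∂U`, and the Newtonian potential of the shell between them is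
constant on the closure of `T`. -/
def HollowShell (U T : Set (EuclideanSpace ℝ (Fin 3))) : Prop :=
  IsSolid U ∧ IsSolid T ∧ closure T ⊆ U ∧
    ∃ c : ℝ, ∀ P ∈ closure T, ∫ M in U \ closure T, (dist P M)⁻¹ = c

/-- `U` is an open set between the balls of radii `r` and `1` for some `r > √3 / 2`, which contains
with a point `x` all points `y` with `|y j| ≤ |x j|` for all `j`. -/
def Admissible (U : Set (EuclideanSpace ℝ (Fin 3))) : Prop :=
  IsOpen U ∧ U ⊆ ball 0 1 ∧ (∃ r : ℝ, 0 < r ∧ 3 / 4 < r ^ 2 ∧ ball 0 r ⊆ U) ∧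
    ∀ x ∈ U, ∀ y : EuclideanSpace ℝ (Fin 3), (∀ j, |y j| ≤ |x j|) → y ∈ U

/-- The convex body `‖x‖² + (x₀⁴ + x₁⁴ + x₂⁴) / 4 < 1`. -/
def Quartic : Set (EuclideanSpace ℝ (Fin 3)) := {x | ‖x‖ ^ 2 + (∑ j, x j ^ 4) / 4 < 1}

open Pool.Agent.HollowShell (E)

private theorem admissible_quartic : Admissible Quartic := by
  refine ⟨?_, ?_, ⟨9 / 10, by norm_num, by norm_num, ?_⟩, ?_⟩
  · exact isOpen_lt (by fun_prop) continuous_const
  · intro x hx
    rw [mem_ball_zero_iff]
    have h1 : ‖x‖ ^ 2 + (∑ j, x j ^ 4) / 4 < 1 := hx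
    have h2 : 0 ≤ ∑ j, x j ^ 4 := Finset.sum_nonneg fun j _ => by positivity
    by_contra h
    push Not at h
    nlinarith
  · intro x hx
    rw [mem_ball_zero_iff] at hx
    show ‖x‖ ^ 2 + (∑ j, x j ^ 4) / 4 < 1
    have h1 : ‖x‖ ^ 2 < 81 / 100 := by
      have := norm_nonneg x
      nlinarith
    have h2 : ∑ j, x j ^ 4 ≤ (‖x‖ ^ 2) ^ 2 := by
      rw [EuclideanSpace.norm_sq_eq, Fin.sum_univ_three, Fin.sum_univ_three]
      simp only [Real.norm_eq_abs, sq_abs]
      nlinarith [mul_nonneg (sq_nonneg (x 0)) (sq_nonneg (x 1)),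
        mul_nonneg (sq_nonneg (x 0)) (sq_nonneg (x 2)),
        mul_nonneg (sq_nonneg (x 1)) (sq_nonneg (x 2))]
    have h3 : (‖x‖ ^ 2) ^ 2 ≤ ‖x‖ ^ 2 * 1 := by
      rw [pow_two (‖x‖ ^ 2)]
      exact mul_le_mul_of_nonneg_left (by linarith) (by positivity)
    have h4 : (‖x‖ ^ 2) ^ 2 ≤ (81 / 100) ^ 2 := by
      exact pow_le_pow_left₀ (by positivity) h1.le 2
    nlinarith
  · intro x hx y hy
    have h1 : ‖x‖ ^ 2 + (∑ j, x j ^ 4) / 4 < 1 := hx
    show ‖y‖ ^ 2 + (∑ j, y j ^ 4) / 4 < 1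
    have h2 : ‖y‖ ≤ ‖x‖ := Pool.Agent.HollowShell.norm_le_of_abs_le hy
    have h3 : ‖y‖ ^ 2 ≤ ‖x‖ ^ 2 := pow_le_pow_left₀ (norm_nonneg y) h2 2
    have h4 : ∑ j, y j ^ 4 ≤ ∑ j, x j ^ 4 := by
      refine Finset.sum_le_sum fun j _ => ?_
      have h5 := pow_le_pow_left₀ (abs_nonneg (y j)) (hy j) 4
      have e : ∀ a : ℝ, |a| ^ 4 = a ^ 4 := fun a => by
        rw [show 4 = 2 * 2 from rfl, pow_mul, sq_abs, ← pow_mul]
      rwa [e, e] at h5
    linarith

private theorem frontier_quartic (x : E) (hx : ‖x‖ ^ 2 + (∑ j, x j ^ 4) / 4 = 1) :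
    x ∈ frontier Quartic := by
  have hopen : IsOpen Quartic := admissible_quartic.1
  rw [hopen.frontier_eq]
  refine ⟨?_, fun h => ?_⟩
  · have hlim : Filter.Tendsto (fun t : ℝ => t • x) (nhdsWithin 1 (Iio 1)) (nhds ((1 : ℝ) • x)) :=
      (Continuous.tendsto (by fun_prop : Continuous fun t : ℝ => t • x) 1).mono_left
        nhdsWithin_le_nhds
    rw [one_smul] at hlim
    refine mem_closure_of_tendsto hlim ?_
    have h3 : ∀ᶠ t : ℝ in nhdsWithin 1 (Iio 1), 0 < t :=
      nhdsWithin_le_nhds (lt_mem_nhds (by norm_num))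
    filter_upwards [h3, self_mem_nhdsWithin] with t ht ht1
    have ht1' : t < 1 := ht1
    show ‖t • x‖ ^ 2 + (∑ j, (t • x) j ^ 4) / 4 < 1
    have e1 : ∑ j, (t • x) j ^ 4 = t ^ 4 * ∑ j, x j ^ 4 := by
      rw [Finset.mul_sum]
      exact Finset.sum_congr rfl fun j _ => by
        rw [PiLp.smul_apply, smul_eq_mul, mul_pow]
    have h5 : 0 ≤ ∑ j, x j ^ 4 := Finset.sum_nonneg fun j _ => by positivity
    rw [norm_smul, mul_pow, e1, Real.norm_eq_abs, sq_abs]
    have h6 : t ^ 2 < 1 := by nlinarith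
    have h7 : t ^ 4 ≤ t ^ 2 := by nlinarith [sq_nonneg t, sq_nonneg (t ^ 2)]
    have h8 : t ^ 4 * ∑ j, x j ^ 4 ≤ t ^ 2 * ∑ j, x j ^ 4 := mul_le_mul_of_nonneg_right h7 h5
    nlinarith
  · have h1 : ‖x‖ ^ 2 + (∑ j, x j ^ 4) / 4 < 1 := h
    linarith

private theorem not_ellipsoid : ¬ IsEllipsoid (frontier Quartic) := by
  rintro ⟨f, hf⟩
  obtain ⟨s, hs0, hs⟩ : ∃ s : ℝ, 0 < s ∧ s ^ 2 + s ^ 4 / 4 = 1 := by
    have h0 : 1 < √2 := by
      rw [Real.lt_sqrt (by norm_num)]
      norm_num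
    have h1 : (0 : ℝ) < 2 * (√2 - 1) := by linarith
    have h2 : (√(2 * (√2 - 1))) ^ 2 = 2 * (√2 - 1) := Real.sq_sqrt h1.le
    have h3 : (√2) ^ 2 = 2 := Real.sq_sqrt (by norm_num)
    refine ⟨√(2 * (√2 - 1)), Real.sqrt_pos.2 h1, ?_⟩
    linear_combination (1 + ((√(2 * (√2 - 1))) ^ 2 + 2 * (√2 - 1)) / 4) * h2 + h3
  obtain ⟨t, ht0, ht⟩ : ∃ t : ℝ, 0 < t ∧ 2 * t ^ 2 + t ^ 4 / 2 = 1 := by
    have h0 : 2 < √6 := by
      rw [Real.lt_sqrt (by norm_num)]
      norm_num
    have h1 : (0 : ℝ) < √6 - 2 := by linarith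
    have h2 : (√(√6 - 2)) ^ 2 = √6 - 2 := Real.sq_sqrt h1.le
    have h3 : (√6) ^ 2 = 6 := Real.sq_sqrt (by norm_num)
    refine ⟨√(√6 - 2), Real.sqrt_pos.2 h1, ?_⟩
    linear_combination (2 + ((√(√6 - 2)) ^ 2 + (√6 - 2)) / 2) * h2 + h3 / 2
  set g : E ≃ᵃ[ℝ] E := f.symm with hg
  have hgs : ∀ x ∈ frontier Quartic, ‖g x‖ = 1 := by
    intro x hx
    rw [hf] at hx
    obtain ⟨y, hy, rfl⟩ := hx
    rw [hg, AffineEquiv.symm_apply_apply]
    exact mem_sphere_zero_iff_norm.1 hy
  set o : E := g 0 with ho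
  set A : E := g.linear (EuclideanSpace.single 0 1) with hA
  set B : E := g.linear (EuclideanSpace.single 1 1) with hB
  have hgl : ∀ x : E, g x = g.linear x + o := by
    intro x
    have := g.map_vadd 0 x
    simpa using this
  have key : ∀ a b : ℝ, (a ^ 2 + b ^ 2) + (a ^ 4 + b ^ 4) / 4 = 1 →
      ‖a • A + b • B + o‖ ^ 2 = 1 := by
    intro a b hab
    have h1 : (WithLp.toLp 2 ![a, b, 0] : E) ∈ frontier Quartic := by
      apply frontier_quartic
      rw [EuclideanSpace.norm_sq_eq, Fin.sum_univ_three, Fin.sum_univ_three]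
      simp only [Real.norm_eq_abs, sq_abs]
      simp only [Matrix.cons_val_zero, Matrix.cons_val_one, Matrix.cons_val]
      linarith
    have h2 : (WithLp.toLp 2 ![a, b, 0] : E) = a • EuclideanSpace.single 0 1 +
        b • EuclideanSpace.single 1 1 := by
      ext j
      fin_cases j <;> simp
    have h3 := hgs _ h1
    rw [hgl, h2, map_add, map_smul, map_smul] at h3
    rw [h3]
    norm_num
  have ex : ∀ a b : ℝ, ‖a • A + b • B + o‖ ^ 2 = a ^ 2 * inner ℝ A A + b ^ 2 * inner ℝ B B +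
      2 * a * b * inner ℝ A B + 2 * a * inner ℝ A o + 2 * b * inner ℝ B o + inner ℝ o o := by
    intro a b
    rw [← real_inner_self_eq_norm_sq]
    simp only [inner_add_left, inner_add_right, inner_smul_left, inner_smul_right,
      conj_trivial]
    rw [real_inner_comm A B, real_inner_comm A o, real_inner_comm B o]
    ring
  have hA0 : inner ℝ A A ≠ 0 := by
    rw [real_inner_self_eq_norm_sq]
    have h1 : A ≠ 0 := by
      rw [hA, Ne, LinearEquiv.map_eq_zero_iff]
      intro h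
      have := congrArg (fun v : E => v 0) h
      simp at this
    exact pow_ne_zero 2 (norm_ne_zero_iff.2 h1)
  have key2 : ∀ a b : ℝ, (a ^ 2 + b ^ 2) + (a ^ 4 + b ^ 4) / 4 = 1 →
      a ^ 2 * inner ℝ A A + b ^ 2 * inner ℝ B B +
      2 * a * b * inner ℝ A B + 2 * a * inner ℝ A o + 2 * b * inner ℝ B o + inner ℝ o o = 1 :=
    fun a b hab => (ex a b).symm.trans (key a b hab)
  clear key ex hgl hgs hf
  generalize inner ℝ A A = aa at *
  generalize inner ℝ B B = bb at *
  generalize inner ℝ A B = ab at *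
  generalize inner ℝ A o = ao at *
  generalize inner ℝ B o = bo at *
  generalize inner ℝ o o = oo at *
  have k1 := key2 s 0 (by linear_combination hs)
  have k2 := key2 (-s) 0 (by linear_combination hs)
  have k3 := key2 0 s (by linear_combination hs)
  have k4 := key2 0 (-s) (by linear_combination hs)
  have k5 := key2 t t (by linear_combination ht)
  have k6 := key2 (-t) (-t) (by linear_combination ht)
  have k7 := key2 t (-t) (by linear_combination ht)
  have k8 := key2 (-t) t (by linear_combination ht)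
  have m1 : s ^ 2 * aa + oo = 1 := by linear_combination (k1 + k2) / 2
  have m2 : s ^ 2 * bb + oo = 1 := by linear_combination (k3 + k4) / 2
  have m3 : t ^ 2 * (aa + bb) + oo = 1 := by linear_combination (k5 + k6 + k7 + k8) / 4
  have m4 : aa = bb := by
    have h1 : s ^ 2 * (aa - bb) = 0 := by linear_combination m1 - m2
    rcases mul_eq_zero.1 h1 with h | h
    · exact absurd h (pow_ne_zero 2 hs0.ne')
    · linarith
  have m5 : (2 * t ^ 2 - s ^ 2) * aa = 0 := by
    rw [← m4] at m3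
    linear_combination m3 - m1
  have m6 : 2 * t ^ 2 = s ^ 2 := by
    rcases mul_eq_zero.1 m5 with h | h
    · linarith
    · exact absurd h hA0
  have m7 : s ^ 4 = 4 * t ^ 4 := by
    have h1 : s ^ 4 = (s ^ 2) ^ 2 := by ring
    rw [h1, ← m6]
    ring
  have m8 : 0 < t ^ 4 := by positivity
  linarith

/-- Every admissible open set `U` is the outer solid of a hollow shell in whose cavity the potential
is constant.  The strictly convex body `Quartic`, whose boundary is given by the equation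
`‖x‖² + (x₀⁴ + x₁⁴ + x₂⁴) / 4 = 1`, is admissible, and its boundary is not an ellipsoid. -/
theorem result :
    (∀ U : Set (EuclideanSpace ℝ (Fin 3)), Admissible U →
      ∃ T : Set (EuclideanSpace ℝ (Fin 3)), HollowShell U T) ∧
      Admissible Quartic ∧ ¬ IsEllipsoid (frontier Quartic) := by
  refine ⟨?_, admissible_quartic, not_ellipsoid⟩
  rintro U ⟨hUo, hUs, ⟨r, hr, hr2, hrU⟩, hUu⟩
  obtain ⟨T, hTo, h0T, hTU, hTstar, hpot⟩ :=
    Pool.Agent.HollowShell.shell_general hUo hUs hUu hr hr2 hrU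
  have h0U : (0 : EuclideanSpace ℝ (Fin 3)) ∈ U := hrU (mem_ball_self hr)
  have hUstar := Pool.Agent.HollowShell.star_of_uncond hUu
  have hUb : Bornology.IsBounded U := Metric.isBounded_ball.subset hUs
  have hTb : Bornology.IsBounded T := hUb.subset (subset_closure.trans hTU)
  have hcon : ∀ W : Set (EuclideanSpace ℝ (Fin 3)), (0 : EuclideanSpace ℝ (Fin 3)) ∈ W →
      (∀ x ∈ closure W, ∀ t : ℝ, 0 ≤ t → t < 1 → t • x ∈ W) → IsConnected W := by
    intro W h0 hW
    have h : StarConvex ℝ (0 : EuclideanSpace ℝ (Fin 3)) W := by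
      rw [starConvex_zero_iff]
      intro x hx a ha ha1
      rcases ha1.lt_or_eq with h | h
      · exact hW x (subset_closure hx) a ha h
      · rw [h, one_smul]
        exact hx
    exact (h.isPathConnected h0).isConnected
  exact ⟨T, ⟨hUo, hcon U h0U hUstar, hUb, Pool.Agent.HollowShell.star_homeo hUo h0U hUb hUstar⟩,
    ⟨hTo, hcon T h0T hTstar, hTb, Pool.Agent.HollowShell.star_homeo hTo h0T hTb hTstar⟩, hTU, hpot⟩

end Pool.Agent.Results.MP_7dd24e_an.UnconditionalShells
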